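import Pool.Agent.H146Z.BiGrp

set_option autoImplicit false

namespace Pool.Agent.Results.MP_5cf697_lc.NotBiInterp

open Pool.Agent.H146Z.BiDefs Pool.Agent.H146Z.BiGrp

theorem cross : ∀ u ∈ ({0, 2} : Set (Fin 4)), ∀ v, v ∉ ({0, 2} : Set (Fin 4)) →
    (SimpleGraph.cycleGraph 4).Adj u v := by
  intro u hu v hv
  simp only [Set.mem_insert_iff, Set.mem_singleton_iff] at hu hv
  revert u v
  decide

/-- The partially commutative metabelian group of the 4-cycle has trivial centre and is not
bi-interpretable with arithmetic. -/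
theorem result :
    Subgroup.center (PCM (SimpleGraph.cycleGraph 4)) = ⊥ ∧
      ¬ BiInterp Lgrp Lar (PCM (SimpleGraph.cycleGraph 4)) ℕ := by
  refine ⟨?_, not_biInterp_join _ cross ⟨0, by simp⟩ ⟨1, by simp⟩⟩
  rw [eq_bot_iff]
  intro x hx
  have h := spl_diag _ cross x
  have hc : ({0, 2} : Set (Fin 4))ᶜ = {1, 3} := by
    ext v
    simp only [Set.mem_compl_iff, Set.mem_insert_iff, Set.mem_singleton_iff]
    revert v
    decide
  rw [hc, proj_central _ 0 2 (by decide) (by decide) x hx,
    proj_central _ 1 3 (by decide) (by decide) x hx, one_mul] at h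
  exact h.symm

end Pool.Agent.Results.MP_5cf697_lc.NotBiInterp
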